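import Pool.Agent.H99B.Kap
import Pool.Agent.H99E.Tot

/-!
The critical loop O(n) model on the honeycomb lattice for ALL `n ∈ [0, 1]` (`κ ∈ [8/3, 3]`,
`n = - 2 cos (4 π / κ)`, `x = x_c(n)`), in EVERY finite domain `D` without holes: a path which
crosses `D` raises the probability that a given vertex `v` of `D` is covered, that is visited by the
path or by a loop.

For a boundary edge `e` let `Q_e` be the signed measure on the configurations which consist of a
path which crosses `D` with an end at `e`, and of disjoint loops, with the weights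
`x ^ L n ^ M cos (c W)`; here `W` is the number of left turns minus the number of right turns of the
path and `c = π / 2 - π / κ ∈ [π / 8, π / 6]`. Its total mass is the one of the measure `P` without a
path (a form of the parafermionic identity, with loops). The theorem says

  `∑_e (Q_e (v is covered) - P (v is covered)) ≥ 3 P (v is not covered)`

after division by the common total mass. The three comes from the three edges at `v`: the paths from
the boundary to `v` are reversed, and the parafermionic identity is used a second time for the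
starting point `v` in the bulk; the loops which surround `v` then get the weight
`- 2 cos (8 c) = 2 - n ^ 2`, which is at least `n` for `n ≤ 1`.

The proof is in `Pool/Agent/H99C/` (identity with surrounding loops: `IdentW.lean`) and
`Pool/Agent/H99E/`.
-/

set_option autoImplicit false

namespace Pool.Agent.Results.MP_4960b8_pr.BulkCoverage

open Real

/-- Adjacency in the honeycomb lattice (brick-wall coordinates). -/
def Adj (p q : ℤ × ℤ) : Prop :=
  q - p = (1, 0) ∨ q - p = (-1, 0) ∨
  (q - p = (0, 1) ∧ Even (p.1 + p.2)) ∨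
  (q - p = (0, -1) ∧ Even (q.1 + q.2))

/-- The edges of the path with the given list of vertices. -/
def edges : List (ℤ × ℤ) → Finset (Sym2 (ℤ × ℤ))
  | a :: b :: t => insert s(a, b) (edges (b :: t))
  | _ => ∅

/-- A closed loop, as a set of edges: the edges of a closed path `v, l, v` without other
coincidences. -/
def IsLoop (C : Finset (Sym2 (ℤ × ℤ))) : Prop :=
  ∃ v l, 2 ≤ l.length ∧ (v :: l).Nodup ∧ (v :: (l ++ [v])).IsChain Adj ∧
    C = edges (v :: (l ++ [v]))

open Classical in
/-- The loops in `D`. -/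
noncomputable def loopsIn (D : Finset (ℤ × ℤ)) : Finset (Finset (Sym2 (ℤ × ℤ))) :=
  D.sym2.powerset.filter IsLoop

open Classical in
/-- The loop configurations in `D`: the sets of loops in `D` without common vertices. -/
noncomputable def configs (D : Finset (ℤ × ℤ)) : Finset (Finset (Finset (Sym2 (ℤ × ℤ)))) :=
  (loopsIn D).powerset.filter
    (fun S => ∀ C ∈ S, ∀ C' ∈ S, ∀ e ∈ C, ∀ e' ∈ C', ∀ v ∈ e, v ∈ e' → C = C')

open Classical in
/-- The sum of `n ^ (number of loops) x ^ (number of edges)` over the loop configurations in the part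
of `D` not visited by the path `l` (`0 ^ 0 = 1`). For `l = []` this is the partition function
without a path. -/
noncomputable def Z (n x : ℝ) (D : Finset (ℤ × ℤ)) (l : List (ℤ × ℤ)) : ℝ :=
  ∑ S ∈ configs (D.filter (fun u => u ∉ l)), n ^ S.card * x ^ (∑ C ∈ S, C.card)

open Classical in
/-- The same sum over the loop configurations for which `v` is covered: `v` is on the path `l` or on
one of the loops. -/
noncomputable def Zcov (n x : ℝ) (D : Finset (ℤ × ℤ)) (v : ℤ × ℤ) (l : List (ℤ × ℤ)) : ℝ :=
  ∑ S ∈ (configs (D.filter (fun u => u ∉ l))).filter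
    (fun S => v ∈ l ∨ ∃ C ∈ S, ∃ e ∈ C, v ∈ e), n ^ S.card * x ^ (∑ C ∈ S, C.card)

/-- `D` has no holes: every vertex outside of `D` can be joined by a path outside of `D` to a vertex
which is below all vertices of `D`. -/
def NoHoles (D : Finset (ℤ × ℤ)) : Prop :=
  ∀ z, z ∉ D → ∃ u, (∀ v ∈ D, u.2 < v.2) ∧
    Relation.ReflTransGen (fun p q => Adj p q ∧ q ∉ D) z u

/-- The self-avoiding paths which cross `D`, as lists of vertices: the first and the last vertex are
outside of `D`, and the other vertices (at least one) are in `D`. -/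
def Cross (D : Finset (ℤ × ℤ)) : Set (List (ℤ × ℤ)) :=
  {l | l.Nodup ∧ l.IsChain Adj ∧ ∃ p w q, l = p :: (w ++ [q]) ∧ w ≠ [] ∧ p ∉ D ∧ q ∉ D ∧
    ∀ v ∈ w, v ∈ D}

/-- The boundary edges of `D`, directed into `D`. -/
def Bdry (D : Finset (ℤ × ℤ)) : Set ((ℤ × ℤ) × (ℤ × ℤ)) :=
  {e | e.1 ∉ D ∧ e.2 ∈ D ∧ Adj e.1 e.2}

/-- Twice the height of a vertex; the vertex `v` is at the point `(√3 / 2 * v.1, ht v / 2)` of the
plane, and all edges have the length 1. -/
def ht (v : ℤ × ℤ) : ℤ := 3 * v.2 - (v.1 + v.2) % 2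

/-- The turn at `b` of the path `a, b, c`: `1` to the left, `-1` to the right. -/
def turn (a b c : ℤ × ℤ) : ℤ :=
  ((b.1 - a.1) * (ht c - ht b) - (ht b - ht a) * (c.1 - b.1)) / 2

/-- The number of right turns minus the number of left turns of a path. -/
def W : List (ℤ × ℤ) → ℤ
  | a :: b :: c :: t => turn c b a + W (b :: c :: t)
  | _ => 0

/-- The signed weight of a path which crosses `D`; the number of its vertices in `D` is the number
of its edges, if both boundary edges are counted with `1 / 2`. -/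
noncomputable def wt (κ x : ℝ) (l : List (ℤ × ℤ)) : ℝ :=
  x ^ (l.length - 2) * cos (W l * (π / 2 - π / κ))

section Aux

open Pool.Agent.H99B Pool.Agent.H99C Pool.Agent.H99E

theorem edges_eq (l : List (ℤ × ℤ)) : edges l = Pool.Agent.H99B.edges l := by
  induction l with
  | nil => rfl
  | cons a l ih =>
    match l, ih with
    | [], _ => rfl
    | b :: t, ih =>
      rw [edges, ih]
      rfl

theorem isLoop_iff (C : Finset (Sym2 (ℤ × ℤ))) : IsLoop C ↔ Pool.Agent.H99B.IsLoop C := by
  unfold IsLoop Pool.Agent.H99B.IsLoop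
  constructor
  · rintro ⟨v, l, h1, h2, h3, h4⟩
    rw [edges_eq] at h4
    exact ⟨v, l, ⟨h1, h2, h3⟩, h4⟩
  · rintro ⟨v, l, ⟨h1, h2, h3⟩, h4⟩
    rw [← edges_eq] at h4
    exact ⟨v, l, h1, h2, h3, h4⟩

theorem loopsIn_eq (D : Finset (ℤ × ℤ)) : loopsIn D = Pool.Agent.H99B.loopsIn D := by
  classical
  ext C
  rw [mem_loopsIn]
  unfold loopsIn
  rw [Finset.mem_filter, Finset.mem_powerset, isLoop_iff]
  refine and_congr_left fun _ => ?_
  constructor
  · intro h e he v hv
    exact Finset.mem_sym2_iff.1 (h he) v hv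
  · intro h e he
    exact Finset.mem_sym2_iff.2 (h e he)

theorem configs_eq (D : Finset (ℤ × ℤ)) : configs D = Pool.Agent.H99B.configs D := by
  classical
  ext S
  rw [mem_configs]
  unfold configs
  rw [Finset.mem_filter, Finset.mem_powerset, loopsIn_eq]
  exact Iff.rfl

theorem rest_eq (D : Finset (ℤ × ℤ)) (l : List (ℤ × ℤ)) :
    D.filter (fun u => u ∉ l) = rest D l := by
  ext u
  rw [Finset.mem_filter, mem_rest]

theorem Z_eq (n x : ℝ) (D : Finset (ℤ × ℤ)) (l : List (ℤ × ℤ)) : Z n x D l = Lam n x (rest D l) := by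
  unfold Z Lam
  rw [configs_eq, ← rest_eq]
  rfl

theorem Zcov_eq (n x : ℝ) (D : Finset (ℤ × ℤ)) (v : ℤ × ℤ) (l : List (ℤ × ℤ)) :
    Zcov n x D v l = cov n x D v l := by
  rw [← sum_cov, ← rest_eq]
  unfold Zcov
  rw [configs_eq]
  rfl

theorem W_eq (l : List (ℤ × ℤ)) : W l = H978R2.Hex.W l := by
  induction l with
  | nil => rfl
  | cons a l ih =>
    match l, ih with
    | [], _ => rfl
    | [_], _ => rfl
    | b :: c :: t, ih =>
      rw [W, ih]
      rfl

theorem wt_eq (κ x : ℝ) (l : List (ℤ × ℤ)) : wt κ x l = Fc (π / 2 - π / κ) x l := by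
  unfold wt Fc
  rw [W_eq]

theorem nbr_adj (p q : ℤ × ℤ) : Nbr p q ↔ Adj p q := nbr_iff

theorem cross_eq (D : Finset (ℤ × ℤ)) (l : List (ℤ × ℤ)) : l ∈ Cross D ↔ l ∈ CC D := by
  rw [← cross_iff (S := (D : Set (ℤ × ℤ))) (fun v => by simp)]
  unfold Cross Pool.Agent.H99C.Cross
  simp only [Set.mem_ofPred_eq, Finset.mem_coe]
  refine and_congr_right fun _ => and_congr_left fun _ => ?_
  have : Nbr = Adj := by
    funext p q
    exact propext (nbr_adj p q)
  rw [this]

theorem noHole (D : Finset (ℤ × ℤ)) (h : NoHoles D) : NoHole D := by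
  refine noHole_of fun z hz => ?_
  obtain ⟨u, h1, h2⟩ := h z hz
  refine ⟨u, h1, ?_⟩
  have : (fun p q => Nbr p q ∧ q ∉ D) = (fun p q : ℤ × ℤ => Adj p q ∧ q ∉ D) := by
    funext p q
    rw [nbr_adj]
  rw [this]
  exact h2

theorem bdry_eq (D : Finset (ℤ × ℤ)) : Bdry D = (bd D : Set ((ℤ × ℤ) × (ℤ × ℤ))) := by
  ext e
  rw [Finset.mem_coe, mem_bd]
  unfold Bdry
  rw [Set.mem_ofPred_eq]
  constructor
  · rintro ⟨h1, h2, h3⟩
    exact ⟨h2, h1, h3⟩
  · rintro ⟨h1, h2, h3⟩
    exact ⟨h2, h1, h3⟩

theorem dil_of {κ n x : ℝ} (hκ : 8 / 3 ≤ κ ∧ κ ≤ 3) (hn : n = -2 * cos (4 * π / κ))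
    (hx : x = (2 + (2 - n) ^ (1 / 2 : ℝ)) ^ (-(1 / 2) : ℝ)) : Dil (π / 2 - π / κ) n x := by
  have hp := pr_of hn (Or.inl ⟨hκ.1, by linarith [hκ.2], hx⟩)
  have hpi := pi_pos
  have hk0 : 0 < κ := by linarith [hκ.1]
  have h1 : π / κ ≤ 3 * π / 8 := hp.ang.2
  have h2 : π / 3 ≤ π / κ := div_le_div_of_nonneg_left hpi.le hk0 hκ.2
  refine ⟨by linarith, by linarith, ?_, ?_⟩
  · have e : 4 * (π / 2 - π / κ) = 2 * π - 4 * π / κ := by ring
    rw [e, cos_two_pi_sub, hn]
    ring
  · rw [cos_pi_div_two_sub]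
    exact hp.hxx

end Aux

open Pool.Agent.H99B Pool.Agent.H99C Pool.Agent.H99E

/-- **Theorem.** Let `n ∈ [0, 1]` and `x = x_c(n)`, and let `D` be a finite domain without holes.
(1) For every boundary edge, the paths which cross `D` with an end at this edge have the total signed
weight `Z n x D []`, if its outer vertex has only one neighbour in `D`; and at least `Z n x D []` in
general.
(2) For every vertex `v` of `D`: the difference between the signed weight of all configurations with
a crossing path for which `v` is covered, and the number of boundary edges times the weight of the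
configurations without a path for which `v` is covered, is at least three times the weight of the
configurations without a path for which `v` is not covered. -/
theorem result (κ n x : ℝ) (hκ : 8 / 3 ≤ κ ∧ κ ≤ 3) (hn : n = -2 * cos (4 * π / κ))
    (hx : x = (2 + (2 - n) ^ (1 / 2 : ℝ)) ^ (-(1 / 2) : ℝ)) (D : Finset (ℤ × ℤ))
    (hD : NoHoles D) :
    (∀ e ∈ Bdry D,
      Z n x D [] ≤ ∑ᶠ l ∈ {l | l ∈ Cross D ∧ [e.2, e.1] <:+ l}, wt κ x l * Z n x D l ∧
      ((∀ a ∈ D, Adj e.1 a → a = e.2) →
        ∑ᶠ l ∈ {l | l ∈ Cross D ∧ [e.2, e.1] <:+ l}, wt κ x l * Z n x D l = Z n x D [])) ∧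
    ∀ v ∈ D, 3 * (Z n x D [] - Zcov n x D v []) ≤
      ∑ᶠ l ∈ Cross D, wt κ x l * Zcov n x D v l - (Bdry D).ncard * Zcov n x D v [] := by
  have hd := dil_of hκ hn hx
  have hN := noHole D hD
  refine ⟨?_, ?_⟩
  · rintro ⟨b, a⟩ ⟨hb, ha, hba⟩
    simp only at hb ha hba ⊢
    have h1 := T0 hd hN hba hb
    have e1 : {l : List (ℤ × ℤ) | l ∈ Cross D ∧ [a, b] <:+ l} = (PE D b a : Set (List (ℤ × ℤ))) := by
      ext l
      rw [Finset.mem_coe, mem_PE_iff hb ha, Set.mem_ofPred_eq, cross_eq]
    rw [e1, finsum_mem_coe_finset, Z_eq, rest_nil]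
    simp only [Z_eq, wt_eq]
    exact h1
  · intro v hv
    have h1 := coverage' hd hN hv
    have e1 : Cross D = (CC D : Set (List (ℤ × ℤ))) := by
      ext l
      rw [Finset.mem_coe, cross_eq]
    rw [e1, finsum_mem_coe_finset, bdry_eq, Set.ncard_coe_finset, Z_eq, rest_nil]
    simp only [Zcov_eq, wt_eq]
    linarith

end Pool.Agent.Results.MP_4960b8_pr.BulkCoverage
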